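import Mathlib

/-!
# Selective high divergence passes to the Pixley-Roy hyperspace

Problem MP_3a5480_gt, Q1, answered in the affirmative: if `X` is selectively highly divergent, then so
is its Pixley-Roy hyperspace.  No separation axiom is needed.

Proof.  Given basic open sets `[F n, V n]`, choose points `x n ∈ V n` without convergent subsequences
and put `H n = F n ∪ {x n}`.  If a subsequence of `H` converges to a finite set `G`, then the
corresponding subsequence of `x` is eventually in each neighbourhood of the finite set `G`, and such a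
sequence has a subsequence converging to a point of `G`.
-/

set_option autoImplicit false

open Filter Topology

namespace Pool.Agent.Results.MP_3a5480_gt.PixleyRoySHD

universe u

/-- A space `X` is selectively highly divergent (SHD) if for every sequence `U` of nonempty open sets
one can choose points `x n ∈ U n` such that no subsequence of `x` converges to a point of `X`. -/
def SHD (X : Type u) [TopologicalSpace X] : Prop :=
  ∀ U : ℕ → Set X, (∀ n, IsOpen (U n) ∧ (U n).Nonempty) →
    ∃ x : ℕ → X, (∀ n, x n ∈ U n) ∧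
      ∀ φ : ℕ → ℕ, StrictMono φ → ∀ a : X, ¬ Tendsto (fun k => x (φ k)) atTop (𝓝 a)

/-- The points of the Pixley-Roy hyperspace of `X`: the nonempty finite subsets of `X`. -/
structure PixleyRoy (X : Type u) where
  /-- the underlying set -/
  carrier : Set X
  /-- it is finite -/
  finite : carrier.Finite
  /-- it is not empty -/
  nonempty : carrier.Nonempty

/-- The set `[F, V]` of all nonempty finite `H` with `F ⊆ H ⊆ V`. -/
def box {X : Type u} (F V : Set X) : Set (PixleyRoy X) := {H | F ⊆ H.carrier ∧ H.carrier ⊆ V}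

/-- The Pixley-Roy topology: `S` is open if and only if for each `F ∈ S` there is an open `V ⊇ F` with
`[F, V] ⊆ S`. -/
instance {X : Type u} [TopologicalSpace X] : TopologicalSpace (PixleyRoy X) where
  IsOpen S := ∀ F ∈ S, ∃ V : Set X, IsOpen V ∧ F.carrier ⊆ V ∧ box F.carrier V ⊆ S
  isOpen_univ := fun F _ => ⟨Set.univ, isOpen_univ, Set.subset_univ _, Set.subset_univ _⟩
  isOpen_inter := by
    intro S T hS hT F hF
    obtain ⟨V, hV, hFV, hVS⟩ := hS F hF.1
    obtain ⟨W, hW, hFW, hWT⟩ := hT F hF.2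
    refine ⟨V ∩ W, hV.inter hW, Set.subset_inter hFV hFW, ?_⟩
    rintro H ⟨h1, h2⟩
    exact ⟨hVS ⟨h1, h2.trans Set.inter_subset_left⟩, hWT ⟨h1, h2.trans Set.inter_subset_right⟩⟩
  isOpen_sUnion := by
    intro 𝒮 h𝒮 F hF
    obtain ⟨S, hS, hFS⟩ := hF
    obtain ⟨V, hV, hFV, hVS⟩ := h𝒮 S hS F hFS
    exact ⟨V, hV, hFV, hVS.trans (Set.subset_sUnion_of_mem hS)⟩

theorem isOpen_box {X : Type u} [TopologicalSpace X] (F V : Set X) (hV : IsOpen V) :
    IsOpen (box F V) := by
  rintro H ⟨h1, h2⟩
  exact ⟨V, hV, h2, fun K hK => ⟨h1.trans hK.1, hK.2⟩⟩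

/-- The sets `[F, V]`, with `V ⊇ F` open, form a local base at `F`. -/
theorem nhds_hasBasis {X : Type u} [TopologicalSpace X] (F : PixleyRoy X) :
    (𝓝 F).HasBasis (fun V : Set X => IsOpen V ∧ F.carrier ⊆ V) (fun V => box F.carrier V) := by
  refine ⟨fun S => ⟨fun hS => ?_, ?_⟩⟩
  · obtain ⟨T, hTS, hT, hFT⟩ := mem_nhds_iff.1 hS
    obtain ⟨V, hV, hFV, hVT⟩ := hT F hFT
    exact ⟨V, ⟨hV, hFV⟩, hVT.trans hTS⟩
  · rintro ⟨V, ⟨hV, hFV⟩, hVS⟩
    exact mem_nhds_iff.2 ⟨_, hVS, isOpen_box _ _ hV, le_rfl, hFV⟩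

/-- A sequence which is eventually in each neighbourhood of a finite set has a subsequence converging
to a point of this set. -/
theorem exists_subseq {X : Type u} [TopologicalSpace X] (G : Set X) (hG : G.Finite) :
    ∀ y : ℕ → X, (∀ W : Set X, IsOpen W → G ⊆ W → ∀ᶠ k in atTop, y k ∈ W) →
      ∃ g ∈ G, ∃ ψ : ℕ → ℕ, StrictMono ψ ∧ Tendsto (fun k => y (ψ k)) atTop (𝓝 g) := by
  induction G, hG using Set.Finite.induction_on with
  | empty =>
    intro y hy
    obtain ⟨k, hk⟩ := (hy ∅ isOpen_empty le_rfl).exists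
    exact hk.elim
  | @insert a s _ _ ih =>
    intro y hy
    by_cases h : Tendsto y atTop (𝓝 a)
    · exact ⟨a, Set.mem_insert _ _, id, strictMono_id, h⟩
    · rw [tendsto_nhds] at h
      push Not at h
      obtain ⟨W₁, hW₁, ha, hfr⟩ := h
      have hfr' : ∃ᶠ k in atTop, y k ∉ W₁ := by
        intro hev
        apply hfr
        filter_upwards [hev] with k hk
        simpa using hk
      obtain ⟨ψ, hψ, hψ'⟩ := extraction_of_frequently_atTop hfr'
      obtain ⟨g, hg, χ, hχ, hlim⟩ := ih (fun k => y (ψ k)) (by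
        intro W hW hsW
        have h1 : ∀ᶠ k in atTop, y k ∈ W₁ ∪ W := hy _ (hW₁.union hW) (by
          intro b hb
          rcases hb with rfl | hb
          · exact Or.inl ha
          · exact Or.inr (hsW hb))
        filter_upwards [hψ.tendsto_atTop.eventually h1] with k hk
        rcases hk with hk | hk
        · exact (hψ' k hk).elim
        · exact hk)
      exact ⟨g, Set.mem_insert_of_mem _ hg, fun k => ψ (χ k), hψ.comp hχ, hlim⟩

/-- **Answer to Q1.**  For every topological space `X` (in particular for every `T₁` space), if `X` is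
selectively highly divergent, then so is its Pixley-Roy hyperspace. -/
theorem result (X : Type u) [TopologicalSpace X] (hX : SHD X) : SHD (PixleyRoy X) := by
  intro U hU
  have h1 : ∀ n, ∃ F : PixleyRoy X, ∃ V : Set X, IsOpen V ∧ F.carrier ⊆ V ∧
      box F.carrier V ⊆ U n := by
    intro n
    obtain ⟨F, hF⟩ := (hU n).2
    obtain ⟨V, hV⟩ := (hU n).1 F hF
    exact ⟨F, V, hV⟩
  choose F V hV hFV hVU using h1
  obtain ⟨x, hxV, hx⟩ := hX V (fun n => ⟨hV n, (F n).nonempty.mono (hFV n)⟩)
  refine ⟨fun n => ⟨insert (x n) (F n).carrier, (F n).finite.insert _, Set.insert_nonempty _ _⟩,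
    fun n => hVU n ⟨Set.subset_insert _ _, Set.insert_subset (hxV n) (hFV n)⟩, ?_⟩
  intro φ hφ G hG
  obtain ⟨g, -, ψ, hψ, hlim⟩ := exists_subseq G.carrier G.finite (fun k => x (φ k)) (by
    intro W hW hGW
    have h2 := hG ((nhds_hasBasis G).mem_of_mem (i := W) ⟨hW, hGW⟩)
    have h3 : ∀ᶠ k in atTop,
        (⟨insert (x (φ k)) (F (φ k)).carrier, (F (φ k)).finite.insert _,
          Set.insert_nonempty _ _⟩ : PixleyRoy X) ∈ box G.carrier W := h2
    filter_upwards [h3] with k hk
    exact hk.2 (Set.mem_insert _ _))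
  exact hx (fun k => φ (ψ k)) (hφ.comp hψ) g hlim

end Pool.Agent.Results.MP_3a5480_gt.PixleyRoySHD
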